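import Pool.Agent.Helper28.JM.IfPart
import Pool.Agent.Helper82.JMStruct
import Pool.Agent.Helper84.JMGrid
import Pool.Agent.Helper85.JMTransfer

set_option autoImplicit false

namespace Pool.Agent.Results.MP_c39200_al.QuadraticIffOneGrid

open Pool.Agent.Helper28.JM

/-- For every field `K` and every finite simple planar distributive lattice `L`, the defining
ideal of the join-meet algebra of `L` (the kernel of `y_{a,b} ↦ x_a x_b - x_{a ∨ b} x_{a ∧ b}`)
is generated by homogeneous elements of degree `2` if and only if `L` has at most one interval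
isomorphic to the `3 × 3` grid, the divisor lattice of `2^2 * 3^2`. -/
theorem result (K : Type*) [Field K] (L : Type*) [DistribLattice L] [BoundedOrder L] [Finite L]
    (hs : IsSimpleLat L) (hp : IsPlanarLat L) :
    GeneratedByQuadrics (definingIdeal K L) ↔ (gridIntervals L).Subsingleton := by
  obtain ⟨c, hc, hsup, hinf, hR⟩ := Pool.Agent.Helper82.JM.exists_coords L hs hp
  rw [Pool.Agent.Helper85.JM.transfer K L c hc hsup hinf, QG_iff K hR,
    Pool.Agent.Helper84.JMGrid.grid_iff L c hc hsup hinf hR]

end Pool.Agent.Results.MP_c39200_al.QuadraticIffOneGrid
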